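import Mathlib

set_option autoImplicit false

/-!
Finite averages over the binary strings of a given length.
-/

namespace Pool.Agent.Lib_helper93.KC

/-- All strings of length `n`. -/
def strs : ℕ → List (List Bool)
  | 0 => [[]]
  | n + 1 => (strs n).flatMap fun x => [x ++ [false], x ++ [true]]

theorem mem_strs {n : ℕ} {x : List Bool} : x ∈ strs n ↔ x.length = n := by
  induction n generalizing x with
  | zero => simp [strs]
  | succ n ih =>
    simp only [strs, List.mem_flatMap, List.mem_cons, List.not_mem_nil, or_false]
    constructor
    · rintro ⟨y, hy, rfl | rfl⟩ <;> simp [ih.1 hy]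
    · intro h
      have hne : x ≠ [] := by rintro rfl; simp at h
      refine ⟨x.dropLast, ih.2 (by simp [h]), ?_⟩
      have h2 := List.dropLast_append_getLast hne
      rcases hb : x.getLast hne with _ | _
      · left; rw [hb] at h2; exact h2.symm
      · right; rw [hb] at h2; exact h2.symm

/-- Average of `F` over the strings of length `n`. -/
noncomputable def avg : ℕ → (List Bool → ℝ) → ℝ
  | 0, F => F []
  | n + 1, F => avg n fun x => (F (x ++ [false]) + F (x ++ [true])) / 2

theorem avg_zero (F : List Bool → ℝ) : avg 0 F = F [] := rfl

theorem avg_succ (n : ℕ) (F : List Bool → ℝ) :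
    avg (n + 1) F = avg n fun x => (F (x ++ [false]) + F (x ++ [true])) / 2 := rfl

theorem avg_congr {n : ℕ} {F G : List Bool → ℝ} (h : ∀ x : List Bool, x.length = n → F x = G x) :
    avg n F = avg n G := by
  induction n generalizing F G with
  | zero => exact h [] rfl
  | succ n ih =>
    rw [avg_succ, avg_succ]
    refine ih fun x hx => ?_
    rw [h _ (by simp [hx]), h _ (by simp [hx])]

theorem avg_mono {n : ℕ} {F G : List Bool → ℝ} (h : ∀ x : List Bool, x.length = n → F x ≤ G x) :
    avg n F ≤ avg n G := by
  induction n generalizing F G with
  | zero => exact h [] rfl
  | succ n ih =>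
    rw [avg_succ, avg_succ]
    refine ih fun x hx => ?_
    have h1 := h (x ++ [false]) (by simp [hx])
    have h2 := h (x ++ [true]) (by simp [hx])
    linarith

theorem avg_add (n : ℕ) (F G : List Bool → ℝ) :
    avg n (fun x => F x + G x) = avg n F + avg n G := by
  induction n generalizing F G with
  | zero => rfl
  | succ n ih =>
    rw [avg_succ, avg_succ, avg_succ, ← ih]
    refine avg_congr fun x _ => ?_
    ring

theorem avg_const_mul (n : ℕ) (c : ℝ) (F : List Bool → ℝ) :
    avg n (fun x => c * F x) = c * avg n F := by
  induction n generalizing F with
  | zero => rfl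
  | succ n ih =>
    rw [avg_succ, avg_succ, ← ih]
    refine avg_congr fun x _ => ?_
    ring

theorem avg_sub (n : ℕ) (F G : List Bool → ℝ) :
    avg n (fun x => F x - G x) = avg n F - avg n G := by
  induction n generalizing F G with
  | zero => rfl
  | succ n ih =>
    rw [avg_succ, avg_succ, avg_succ, ← ih]
    refine avg_congr fun x _ => ?_
    ring

theorem avg_const (n : ℕ) (c : ℝ) : avg n (fun _ => c) = c := by
  induction n with
  | zero => rfl
  | succ n ih =>
    rw [avg_succ, ← ih]
    refine avg_congr fun x _ => ?_
    rw [ih]; ring

theorem avg_nonneg {n : ℕ} {F : List Bool → ℝ} (h : ∀ x : List Bool, x.length = n → 0 ≤ F x) :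
    0 ≤ avg n F := by
  have := avg_mono (n := n) (F := fun _ => 0) (G := F) h
  rwa [avg_const] at this

theorem avg_sum {ι : Type*} (n : ℕ) (s : Finset ι) (F : ι → List Bool → ℝ) :
    avg n (fun x => ∑ i ∈ s, F i x) = ∑ i ∈ s, avg n (F i) := by
  classical
  induction s using Finset.induction_on with
  | empty => simp [avg_const]
  | insert a s ha ih =>
    simp only [Finset.sum_insert ha]
    rw [avg_add, ih]

/-- Averages of functions of all the bits but the last. -/
theorem avg_dropLast (n : ℕ) (F : List Bool → ℝ) :
    avg (n + 1) (fun x => F x.dropLast) = avg n F := by
  rw [avg_succ]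
  refine avg_congr fun x _ => ?_
  simp only [List.dropLast_concat]
  ring

theorem avg_eq (n : ℕ) (F : List Bool → ℝ) : avg n F = ((strs n).map F).sum / 2 ^ n := by
  induction n generalizing F with
  | zero => simp [avg, strs]
  | succ n ih =>
    rw [avg_succ, ih]
    have h : ((strs (n + 1)).map F).sum =
        ((strs n).map fun x => F (x ++ [false]) + F (x ++ [true])).sum := by
      simp only [strs]
      induction strs n with
      | nil => simp
      | cons a l ihl =>
        simp only [List.flatMap_cons, List.map_append, List.sum_append, List.map_cons,
          List.sum_cons, ihl]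
        simp
    have h2 : ((strs n).map fun x => (F (x ++ [false]) + F (x ++ [true])) / 2).sum =
        ((strs n).map fun x => F (x ++ [false]) + F (x ++ [true])).sum / 2 := by
      induction strs n with
      | nil => simp
      | cons a l ihl =>
        simp only [List.map_cons, List.sum_cons, ihl]
        ring
    rw [h, h2, pow_succ]
    field_simp

/-- Average of an indicator. -/
theorem avg_ind (n : ℕ) (P : List Bool → Prop) [DecidablePred P] :
    avg n (fun x => if P x then 1 else 0) = (((strs n).filter fun x => P x).length : ℝ) / 2 ^ n := by
  rw [avg_eq]
  congr 1
  induction strs n with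
  | nil => simp
  | cons a l ih =>
    simp only [List.map_cons, List.sum_cons, ih, List.filter_cons]
    split_ifs with h1 h2 h2
    · simp; ring
    · simp [h1] at h2
    · simp [h1] at h2
    · simp

/-- The proportion of strings extending `y`. -/
theorem avg_prefix (y : List Bool) (n : ℕ) (h : y.length ≤ n) :
    avg n (fun x => if x.take y.length = y then 1 else 0) = (1 / 2 : ℝ) ^ y.length := by
  induction n with
  | zero =>
    have : y = [] := List.eq_nil_of_length_eq_zero (by omega)
    subst this
    simp [avg]
  | succ n ih =>
    rcases Nat.lt_or_ge n y.length with h1 | h1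
    · -- y has length n + 1
      have hl : y.length = n + 1 := by omega
      clear ih h h1
      have key : ∀ (n : ℕ) (y : List Bool), y.length = n →
          avg n (fun x => if x = y then 1 else 0) = (1 / 2 : ℝ) ^ n := by
        intro n
        induction n with
        | zero =>
          intro y hy
          have : y = [] := List.eq_nil_of_length_eq_zero hy
          subst this
          simp [avg]
        | succ n ih =>
          intro y hy
          have hne : y ≠ [] := by rintro rfl; simp at hy
          have h2 := List.dropLast_append_getLast hne
          set z := y.dropLast with hz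
          set b := y.getLast hne with hb
          have hzl : z.length = n := by simp [hz, hy]
          rw [avg_succ]
          have h3 : ∀ x : List Bool, x.length = n →
              ((if x ++ [false] = y then (1 : ℝ) else 0) + (if x ++ [true] = y then 1 else 0)) / 2
                = (1 / 2) * (if x = z then 1 else 0) := by
            intro x _
            rw [← h2]
            by_cases hx : x = z
            · subst hx
              cases b <;> simp
            · simp [hx]
          rw [avg_congr h3, avg_const_mul, ih z hzl]
          ring
      rw [hl]
      rw [← key (n + 1) y hl]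
      refine avg_congr fun x hx => ?_
      rw [← hx, List.take_length]
    · rw [avg_succ, ← ih h1]
      refine avg_congr fun x hx => ?_
      have h2 : ∀ b : Bool, (x ++ [b]).take y.length = x.take y.length := by
        intro b
        rw [List.take_append_of_le_length (by omega)]
      rw [h2, h2]
      split_ifs <;> norm_num

theorem avg_prefix_of_lt (y : List Bool) (n : ℕ) (h : n < y.length) :
    avg n (fun x => if x.take y.length = y then (1 : ℝ) else 0) = 0 := by
  refine (avg_congr (G := fun _ => (0 : ℝ)) fun x hx => ?_).trans (avg_const n 0)
  rw [if_neg]
  intro h2
  have := congrArg List.length h2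
  simp at this
  omega

end Pool.Agent.Lib_helper93.KC
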