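import Mathlib
import Pool.Agent.Lib_helper46.Kraft
import Pool.Agent.Lib_helper93.KC.Avg

set_option autoImplicit false

/-!
Integer version of the scheduling construction and its primitive recursiveness.
-/

namespace Pool.Agent.Lib_helper93.KC

open Pool.Agent.Lib_helper46 (two_pow_primrec)

/-- Contribution of the enumerated pair `r` to the (scaled) mass at time `T` along `x`. -/
def tm (T : ℕ) (x : List Bool) (r : List Bool × List Bool) : ℕ :=
  if r.1.length ≤ T ∧ x.take r.2.length = r.2 then 2 ^ (r.2.length + (T - r.1.length)) else 0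

/-- Contribution of stage `t`. -/
def term (e : ℕ → Option (List Bool × List Bool)) (T : ℕ) (x : List Bool) (t : ℕ) : ℕ :=
  ((e t).map (tm T x)).getD 0

/-- The mass at time `T` along `x`, scaled by `2 ^ T`. -/
def Mi (e : ℕ → Option (List Bool × List Bool)) (T : ℕ) (x : List Bool) : ℕ :=
  ((List.range T).map (term e T x)).sum

/-- Test for the starting time `N`. -/
def badN (e : ℕ → Option (List Bool × List Bool)) (q : (List ℕ × ℕ) × ℕ) (x : List Bool)
    (N : ℕ) : Prop :=
  Mi e N (x.take N) * 2 ^ (2 * x.length + 2 - N) +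
    2 ^ (4 * q.2) * (((q.1.1.drop N).map (fun j => 2 ^ (2 * x.length + 2 - j))).sum + q.1.2) <
    Mi e x.length x * 2 ^ (x.length + 2)

instance (e : ℕ → Option (List Bool × List Bool)) (q : (List ℕ × ℕ) × ℕ) (x : List Bool)
    (N : ℕ) : Decidable (badN e q x N) := by unfold badN; infer_instance

/-- The queue condition. -/
def Bad (e : ℕ → Option (List Bool × List Bool)) (x : List Bool) (q : (List ℕ × ℕ) × ℕ) : Prop :=
  ∃ N ∈ List.range x.length, badN e q x N

instance (e : ℕ → Option (List Bool × List Bool)) (x : List Bool) (q : (List ℕ × ℕ) × ℕ) :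
    Decidable (Bad e x q) := by unfold Bad; infer_instance

/-- Number of strings of length `n` satisfying the queue condition. -/
def count (e : ℕ → Option (List Bool × List Bool)) (n : ℕ) (q : (List ℕ × ℕ) × ℕ) : ℕ :=
  ((strs n).filter fun x => Bad e x q).length

/-- Is the service `2 ^ (-k)` large enough? -/
def cond (e : ℕ → Option (List Bool × List Bool)) (l : List ℕ) (k : ℕ) : Prop :=
  ((List.range (l.length + 1)).map fun s =>
    2 ^ (2 * s) * count e (l.length + 1) ((l, 2 ^ (2 * (l.length + 1) + 2 - k)), s)).sum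
      ≤ 2 * 2 ^ (l.length + 1)

instance (e : ℕ → Option (List Bool × List Bool)) : DecidableRel (cond e) := by
  intro l k; unfold cond; infer_instance

/-- The next service exponent. -/
def nextk (e : ℕ → Option (List Bool × List Bool)) (l : List ℕ) : ℕ :=
  Nat.findGreatest (cond e l) (2 * l.length + 2)

/-- The list of the first service exponents. -/
def ks (e : ℕ → Option (List Bool × List Bool)) : ℕ → List ℕ
  | 0 => []
  | T + 1 => ks e T ++ [nextk e (ks e T)]

/-- The service exponents. -/
def kk (e : ℕ → Option (List Bool × List Bool)) (T : ℕ) : ℕ := nextk e (ks e T)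

/-- The set of strings of length `n` with positive backlog at level `s`. -/
def W (e : ℕ → Option (List Bool × List Bool)) (s n : ℕ) : List (List Bool) :=
  (strs n).filter fun x => Bad e x ((ks e n, 0), s)

/-! ### Primitive recursiveness -/

theorem sum_primrec : Primrec (List.sum : List ℕ → ℕ) := by
  have h : Primrec (fun l : List ℕ => l.foldr (fun b s => b + s) 0) :=
    Primrec.list_foldr (f := fun l : List ℕ => l) (g := fun _ => 0)
      (h := fun _ (x : ℕ × ℕ) => x.1 + x.2) Primrec.id (Primrec.const 0)
      (Primrec.nat_add.comp (Primrec.fst.comp Primrec.snd) (Primrec.snd.comp Primrec.snd)).to₂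
  exact h.of_eq fun l => rfl

theorem strs_primrec : Primrec strs := by
  have h : Primrec₂ (fun (_ : ℕ) (l : List (List Bool)) =>
      l.flatMap fun x => [x ++ [false], x ++ [true]]) := by
    refine Primrec.list_flatMap (f := fun a : ℕ × List (List Bool) => a.2)
      (g := fun _ x => [x ++ [false], x ++ [true]]) Primrec.snd ?_
    have hx : Primrec (fun a : (ℕ × List (List Bool)) × List Bool => a.2) := Primrec.snd
    have h1 : ∀ b : Bool, Primrec (fun a : (ℕ × List (List Bool)) × List Bool => a.2 ++ [b]) :=
      fun b => Primrec.list_append.comp hx (Primrec.const [b])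
    exact (Primrec.list_cons.comp (h1 false)
      (Primrec.list_cons.comp (h1 true) (Primrec.const []))).to₂
  refine (Primrec.nat_rec₁ (f := fun _ l => l.flatMap fun x => [x ++ [false], x ++ [true]])
    [[]] h).of_eq fun n => ?_
  induction n with
  | zero => rfl
  | succ n ih => simp only [strs, ← ih]

theorem tm_primrec : Primrec (fun a : (ℕ × List Bool) × (List Bool × List Bool) =>
    tm a.1.1 a.1.2 a.2) := by
  unfold tm
  have hT : Primrec (fun a : (ℕ × List Bool) × (List Bool × List Bool) => a.1.1) :=
    Primrec.fst.comp Primrec.fst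
  have hx : Primrec (fun a : (ℕ × List Bool) × (List Bool × List Bool) => a.1.2) :=
    Primrec.snd.comp Primrec.fst
  have hy : Primrec (fun a : (ℕ × List Bool) × (List Bool × List Bool) => a.2.2) :=
    Primrec.snd.comp Primrec.snd
  have hp : Primrec (fun a : (ℕ × List Bool) × (List Bool × List Bool) => a.2.1.length) :=
    Primrec.list_length.comp (Primrec.fst.comp Primrec.snd)
  have hyl : Primrec (fun a : (ℕ × List Bool) × (List Bool × List Bool) => a.2.2.length) :=
    Primrec.list_length.comp hy
  refine Primrec.ite (PrimrecPred.and (Primrec.nat_le.comp hp hT)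
    (Primrec.eq.comp (Primrec.list_take.comp hyl hx) hy)) ?_ (Primrec.const 0)
  exact two_pow_primrec.comp (Primrec.nat_add.comp hyl (Primrec.nat_sub.comp hT hp))

variable {e : ℕ → Option (List Bool × List Bool)}

theorem term_primrec (he : Primrec e) : Primrec (fun a : (ℕ × List Bool) × ℕ =>
    term e a.1.1 a.1.2 a.2) := by
  unfold term
  refine Primrec.option_getD.comp (Primrec.option_map (he.comp Primrec.snd) ?_) (Primrec.const 0)
  exact (tm_primrec.comp (Primrec.pair (Primrec.fst.comp Primrec.fst) Primrec.snd)).to₂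

theorem Mi_primrec (he : Primrec e) : Primrec₂ (Mi e) := by
  unfold Mi
  refine sum_primrec.comp (Primrec.list_map (f := fun a : ℕ × List Bool => List.range a.1)
    (g := fun a t => term e a.1 a.2 t) (Primrec.list_range.comp Primrec.fst) ?_)
  exact (term_primrec he).to₂

theorem badN_primrec (he : Primrec e) :
    PrimrecRel (fun (N : ℕ) (a : ((List ℕ × ℕ) × ℕ) × List Bool) => badN e a.1 a.2 N) := by
  unfold badN
  have hN : Primrec (fun b : ℕ × (((List ℕ × ℕ) × ℕ) × List Bool) => b.1) := Primrec.fst
  have hx : Primrec (fun b : ℕ × (((List ℕ × ℕ) × ℕ) × List Bool) => b.2.2) :=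
    Primrec.snd.comp Primrec.snd
  have hs : Primrec (fun b : ℕ × (((List ℕ × ℕ) × ℕ) × List Bool) => b.2.1.2) :=
    Primrec.snd.comp (Primrec.fst.comp Primrec.snd)
  have hz : Primrec (fun b : ℕ × (((List ℕ × ℕ) × ℕ) × List Bool) => b.2.1.1.2) :=
    Primrec.snd.comp (Primrec.fst.comp (Primrec.fst.comp Primrec.snd))
  have hl : Primrec (fun b : ℕ × (((List ℕ × ℕ) × ℕ) × List Bool) => b.2.1.1.1) :=
    Primrec.fst.comp (Primrec.fst.comp (Primrec.fst.comp Primrec.snd))
  have hxl : Primrec (fun b : ℕ × (((List ℕ × ℕ) × ℕ) × List Bool) => b.2.2.length) :=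
    Primrec.list_length.comp hx
  have hD : Primrec (fun b : ℕ × (((List ℕ × ℕ) × ℕ) × List Bool) => 2 * b.2.2.length + 2) :=
    Primrec.succ.comp (Primrec.succ.comp (Primrec.nat_mul.comp (Primrec.const 2) hxl))
  have h1 : Primrec (fun b : ℕ × (((List ℕ × ℕ) × ℕ) × List Bool) =>
      Mi e b.1 (b.2.2.take b.1) * 2 ^ (2 * b.2.2.length + 2 - b.1)) :=
    Primrec.nat_mul.comp ((Mi_primrec he).comp hN (Primrec.list_take.comp hN hx))
      (two_pow_primrec.comp (Primrec.nat_sub.comp hD hN))
  have h2 : Primrec (fun b : ℕ × (((List ℕ × ℕ) × ℕ) × List Bool) => 2 ^ (4 * b.2.1.2)) :=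
    two_pow_primrec.comp (Primrec.nat_mul.comp (Primrec.const 4) hs)
  have h3 : Primrec (fun b : ℕ × (((List ℕ × ℕ) × ℕ) × List Bool) =>
      ((b.2.1.1.1.drop b.1).map (fun j => 2 ^ (2 * b.2.2.length + 2 - j))).sum) := by
    refine sum_primrec.comp (Primrec.list_map (Primrec.list_drop.comp hN hl) ?_)
    exact (two_pow_primrec.comp (Primrec.nat_sub.comp (hD.comp Primrec.fst) Primrec.snd)).to₂
  have h4 : Primrec (fun b : ℕ × (((List ℕ × ℕ) × ℕ) × List Bool) =>
      Mi e b.2.2.length b.2.2 * 2 ^ (b.2.2.length + 2)) :=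
    Primrec.nat_mul.comp ((Mi_primrec he).comp hxl hx)
      (two_pow_primrec.comp (Primrec.succ.comp (Primrec.succ.comp hxl)))
  exact Primrec.nat_lt.comp (Primrec.nat_add.comp h1 (Primrec.nat_mul.comp h2
    (Primrec.nat_add.comp h3 hz))) h4

theorem Bad_primrec (he : Primrec e) : PrimrecRel (Bad e) := by
  unfold Bad
  have h := (badN_primrec he).exists_mem_list
  exact h.comp (Primrec.list_range.comp (Primrec.list_length.comp Primrec.fst))
    (Primrec.pair Primrec.snd Primrec.fst)

theorem filterBad_primrec (he : Primrec e) :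
    Primrec₂ (fun (n : ℕ) (q : (List ℕ × ℕ) × ℕ) => (strs n).filter fun x => Bad e x q) := by
  have h := (Bad_primrec he).listFilter
  exact (h.comp (strs_primrec.comp Primrec.fst) Primrec.snd).to₂

theorem count_primrec (he : Primrec e) : Primrec₂ (count e) :=
  (Primrec.list_length.comp (filterBad_primrec he)).to₂

theorem cond_primrec (he : Primrec e) : PrimrecRel (cond e) := by
  unfold cond
  have hl : Primrec (fun a : List ℕ × ℕ => a.1.length + 1) :=
    Primrec.succ.comp (Primrec.list_length.comp Primrec.fst)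
  have h1 : Primrec (fun a : List ℕ × ℕ => ((List.range (a.1.length + 1)).map fun s =>
      2 ^ (2 * s) * count e (a.1.length + 1)
        ((a.1, 2 ^ (2 * (a.1.length + 1) + 2 - a.2)), s)).sum) := by
    refine sum_primrec.comp (Primrec.list_map (Primrec.list_range.comp hl) ?_)
    have hs : Primrec (fun b : (List ℕ × ℕ) × ℕ => 2 ^ (2 * b.2)) :=
      two_pow_primrec.comp (Primrec.nat_mul.comp (Primrec.const 2) Primrec.snd)
    have hl' : Primrec (fun b : (List ℕ × ℕ) × ℕ => b.1.1.length + 1) := hl.comp Primrec.fst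
    have hz : Primrec (fun b : (List ℕ × ℕ) × ℕ => 2 ^ (2 * (b.1.1.length + 1) + 2 - b.1.2)) :=
      two_pow_primrec.comp (Primrec.nat_sub.comp
        (Primrec.succ.comp (Primrec.succ.comp (Primrec.nat_mul.comp (Primrec.const 2) hl')))
        (Primrec.snd.comp Primrec.fst))
    exact (Primrec.nat_mul.comp hs ((count_primrec he).comp hl'
      (Primrec.pair (Primrec.pair (Primrec.fst.comp Primrec.fst) hz) Primrec.snd))).to₂
  exact Primrec.nat_le.comp h1
    (Primrec.nat_mul.comp (Primrec.const 2) (two_pow_primrec.comp hl))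

theorem nextk_primrec (he : Primrec e) : Primrec (nextk e) :=
  Primrec.nat_findGreatest (Primrec.succ.comp (Primrec.succ.comp
    (Primrec.nat_mul.comp (Primrec.const 2) Primrec.list_length))) (cond_primrec he)

theorem ks_primrec (he : Primrec e) : Primrec (ks e) := by
  have h : Primrec₂ (fun (_ : ℕ) (l : List ℕ) => l ++ [nextk e l]) :=
    (Primrec.list_append.comp Primrec.snd (Primrec.list_cons.comp
      ((nextk_primrec he).comp Primrec.snd) (Primrec.const []))).to₂
  refine (Primrec.nat_rec₁ (f := fun _ l => l ++ [nextk e l]) [] h).of_eq fun n => ?_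
  induction n with
  | zero => rfl
  | succ n ih => simp only [ks, ← ih]

theorem kk_primrec (he : Primrec e) : Primrec (kk e) := (nextk_primrec he).comp (ks_primrec he)

theorem W_primrec (he : Primrec e) : Primrec₂ (W e) := by
  unfold W
  exact ((filterBad_primrec he).comp Primrec.snd (Primrec.pair (Primrec.pair
    ((ks_primrec he).comp Primrec.snd) (Primrec.const 0)) Primrec.fst)).to₂

end Pool.Agent.Lib_helper93.KC
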