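import Mathlib
import Pool.Agent.Lib_helper46.KDefs

set_option autoImplicit false

/-!
The properties (A1) and (B1) of the problem MP_018646_lc.
-/

namespace Pool.Agent.Lib_helper93.KC

open MeasureTheory Pool.Agent.Lib_helper46.Measures

/-- Property (A1): `K(μ ↾ n) ≥ n + K(n) - c` for infinitely many `n`, where `K` is the
complexity with respect to the universal prefix-free machine `V`. -/
def A1 (V : List Bool →. List Bool) (μ : Measure (ℕ → Bool)) : Prop :=
  ∃ c : ℝ, ∃ᶠ n : ℕ in Filter.atTop,
    average (complexity V) μ n ≥ n + complexity V (binCode n) - c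

/-- Property (B1): `C(μ ↾ n) ≥ n - c` for infinitely many `n`, where `C` is the complexity with
respect to the universal plain machine `U`. -/
def B1 (U : List Bool →. List Bool) (μ : Measure (ℕ → Bool)) : Prop :=
  ∃ c : ℝ, ∃ᶠ n : ℕ in Filter.atTop, average (complexity U) μ n ≥ n - c

end Pool.Agent.Lib_helper93.KC
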