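import Mathlib
import Pool.Agent.Lib_helper93.KC.Avg

set_option autoImplicit false

/-!
The scheduling theorem: a common service sequence for a family of queues.
-/

namespace Pool.Agent.Lib_helper93.KC

/-- Backlog of queue `s` at time `T`. -/
noncomputable def U (m : List Bool → ℝ) (a : ℕ → ℝ) (s : ℕ) : ℕ → List Bool → ℝ
  | 0, _ => 0
  | T + 1, x => max (U m a s T x.dropLast + (1 / 16) ^ s * (m x - m x.dropLast) - a T) 0

/-- Backlog plus new arrivals, before service. -/
noncomputable def V (m : List Bool → ℝ) (a : ℕ → ℝ) (s T : ℕ) (x : List Bool) : ℝ :=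
  U m a s T x.dropLast + (1 / 16) ^ s * (m x - m x.dropLast)

variable {m : List Bool → ℝ} {a : ℕ → ℝ}

theorem U_zero (s : ℕ) (x : List Bool) : U m a s 0 x = 0 := rfl

theorem U_succ (s T : ℕ) (x : List Bool) : U m a s (T + 1) x = max (V m a s T x - a T) 0 := rfl

theorem U_nonneg (s T : ℕ) (x : List Bool) : 0 ≤ U m a s T x := by
  cases T with
  | zero => exact le_rfl
  | succ T => rw [U_succ]; exact le_max_right _ _

theorem V_nonneg (hmono : ∀ x : List Bool, m x.dropLast ≤ m x) (s T : ℕ) (x : List Bool) :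
    0 ≤ V m a s T x := by
  unfold V
  have h1 := U_nonneg (m := m) (a := a) s T x.dropLast
  have h2 := hmono x
  have h3 : (0 : ℝ) < (1 / 16) ^ s := by positivity
  nlinarith

theorem U_le_V (hmono : ∀ x : List Bool, m x.dropLast ≤ m x) (ha : ∀ T, 0 ≤ a T)
    (s T : ℕ) (x : List Bool) : U m a s (T + 1) x ≤ V m a s T x := by
  rw [U_succ]
  exact max_le (by linarith [ha T]) (V_nonneg hmono s T x)

theorem avg_V (s T : ℕ) : avg (T + 1) (V m a s T) =
    avg T (U m a s T) + (1 / 16) ^ s * (avg (T + 1) m - avg T m) := by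
  have h : V m a s T = fun x => U m a s T x.dropLast + (1 / 16) ^ s * (m x - m x.dropLast) := rfl
  rw [h, avg_add, avg_dropLast, avg_const_mul, avg_sub, avg_dropLast]

theorem avg_U_le (hm0 : 0 ≤ m []) (hmono : ∀ x : List Bool, m x.dropLast ≤ m x)
    (ha : ∀ T, 0 ≤ a T) (s T : ℕ) : avg T (U m a s T) ≤ (1 / 16) ^ s * avg T m := by
  induction T with
  | zero =>
    rw [avg_zero, avg_zero, U_zero]
    positivity
  | succ T ih =>
    have h1 : avg (T + 1) (U m a s (T + 1)) ≤ avg (T + 1) (V m a s T) :=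
      avg_mono fun x _ => U_le_V hmono ha s T x
    rw [avg_V] at h1
    linarith

theorem avg_V_le (hm0 : 0 ≤ m []) (hmono : ∀ x : List Bool, m x.dropLast ≤ m x)
    (ha : ∀ T, 0 ≤ a T) (s T : ℕ) : avg (T + 1) (V m a s T) ≤ (1 / 16) ^ s * avg (T + 1) m := by
  rw [avg_V]
  have := avg_U_le hm0 hmono ha s T
  linarith

/-- The potential. -/
noncomputable def Phi (m : List Bool → ℝ) (a : ℕ → ℝ) (T : ℕ) (y : ℝ) : ℝ :=
  open Classical in
  ∑ s ∈ Finset.range (T + 1), 4 ^ s * avg (T + 1) (fun x => if y < V m a s T x then 1 else 0)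

theorem geom_le (n : ℕ) : ∑ s ∈ Finset.range n, (1 / 4 : ℝ) ^ s ≤ 4 / 3 := by
  have : ∑ s ∈ Finset.range n, (1 / 4 : ℝ) ^ s = 4 / 3 * (1 - (1 / 4) ^ n) := by
    induction n with
    | zero => simp
    | succ n ih => rw [Finset.sum_range_succ, ih]; ring
  rw [this]
  have h : (0 : ℝ) < (1 / 4) ^ n := by positivity
  linarith

theorem Phi_one (hm0 : 0 ≤ m []) (hmono : ∀ x : List Bool, m x.dropLast ≤ m x)
    (havg : ∀ T, avg T m ≤ 1) (ha : ∀ T, 0 ≤ a T) (T : ℕ) : Phi m a T 1 ≤ 2 := by
  classical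
  unfold Phi
  have h1 : ∀ s ∈ Finset.range (T + 1),
      (4 : ℝ) ^ s * avg (T + 1) (fun x => if 1 < V m a s T x then (1 : ℝ) else 0)
        ≤ (1 / 4) ^ s := by
    intro s _
    have h2 : avg (T + 1) (fun x => if 1 < V m a s T x then (1 : ℝ) else 0)
        ≤ avg (T + 1) (V m a s T) := by
      refine avg_mono fun x _ => ?_
      split_ifs with h
      · exact h.le
      · exact V_nonneg hmono s T x
    have h3 := avg_V_le hm0 hmono ha s T
    have h4 : (1 / 16 : ℝ) ^ s * avg (T + 1) m ≤ (1 / 16) ^ s * 1 := by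
      gcongr
      exact havg _
    have h5 : (4 : ℝ) ^ s * (1 / 16) ^ s = (1 / 4) ^ s := by
      rw [← mul_pow]; norm_num
    have h6 : (0 : ℝ) < 4 ^ s := by positivity
    calc (4 : ℝ) ^ s * avg (T + 1) (fun x => if 1 < V m a s T x then (1 : ℝ) else 0)
        ≤ 4 ^ s * ((1 / 16) ^ s * 1) := by
          gcongr
          linarith
      _ = (1 / 4) ^ s := by rw [mul_one, h5]
  have h7 := Finset.sum_le_sum h1
  have h8 := geom_le (T + 1)
  have h9 : (4 / 3 : ℝ) ≤ 2 := by norm_num
  linarith

theorem step_le (hmono : ∀ x : List Bool, m x.dropLast ≤ m x) (ha : ∀ T, 0 < a T) (T : ℕ)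
    (h : 2 < Phi m a T (a T / 2)) :
    a T ≤ ∑ s ∈ Finset.range (T + 1),
      4 ^ s * (avg (T + 1) (V m a s T) - avg (T + 1) (U m a s (T + 1))) := by
  classical
  have h1 : ∀ s, (a T / 2) * avg (T + 1) (fun x => if a T / 2 < V m a s T x then (1 : ℝ) else 0)
      ≤ avg (T + 1) (V m a s T) - avg (T + 1) (U m a s (T + 1)) := by
    intro s
    rw [← avg_sub, ← avg_const_mul]
    refine avg_mono fun x _ => ?_
    rw [U_succ]
    have h2 := V_nonneg (a := a) hmono s T x
    have h3 := ha T
    split_ifs with h4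
    · rcases le_total (V m a s T x - a T) 0 with h5 | h5
      · rw [max_eq_right h5]; linarith
      · rw [max_eq_left h5]; linarith
    · push Not at h4
      rw [max_eq_right (by linarith)]
      linarith
  have h2 : a T ≤ (a T / 2) * Phi m a T (a T / 2) := by
    have := ha T
    nlinarith
  refine h2.trans ?_
  unfold Phi
  rw [Finset.mul_sum]
  refine Finset.sum_le_sum fun s _ => ?_
  have h3 : (0 : ℝ) < 4 ^ s := by positivity
  have h4 := mul_le_mul_of_nonneg_left (h1 s) h3.le
  calc _ = 4 ^ s * (a T / 2 * avg (T + 1) fun x => if a T / 2 < V m a s T x then (1 : ℝ) else 0) := by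
        ring
    _ ≤ _ := h4

theorem total_le (hm0 : 0 ≤ m []) (hmono : ∀ x : List Bool, m x.dropLast ≤ m x)
    (havg : ∀ T, avg T m ≤ 1) (ha : ∀ T, 0 < a T)
    (h : ∀ T, a T ≤ (1 / 4) ^ (T + 1) ∨ 2 < Phi m a T (a T / 2)) (n : ℕ) :
    ∑ T ∈ Finset.range n, a T ≤ 2 := by
  have hd : ∀ s T, 0 ≤ avg (T + 1) (V m a s T) - avg (T + 1) (U m a s (T + 1)) := by
    intro s T
    have := avg_mono (n := T + 1) (F := U m a s (T + 1)) (G := V m a s T)
      fun x _ => U_le_V hmono (fun T => (ha T).le) s T x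
    linarith
  have h1 : ∀ T ∈ Finset.range n, a T ≤ (1 / 4) ^ (T + 1) + ∑ s ∈ Finset.range n,
      4 ^ s * (avg (T + 1) (V m a s T) - avg (T + 1) (U m a s (T + 1))) := by
    intro T hT
    have hT' : T < n := Finset.mem_range.1 hT
    have hnn : ∀ s, 0 ≤ (4 : ℝ) ^ s * (avg (T + 1) (V m a s T) - avg (T + 1) (U m a s (T + 1))) :=
      fun s => mul_nonneg (by positivity) (hd s T)
    rcases h T with h2 | h2
    · have := Finset.sum_nonneg (s := Finset.range n) fun s _ => hnn s
      linarith
    · have h3 := step_le hmono ha T h2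
      have h4 : ∑ s ∈ Finset.range (T + 1),
          (4 : ℝ) ^ s * (avg (T + 1) (V m a s T) - avg (T + 1) (U m a s (T + 1))) ≤
          ∑ s ∈ Finset.range n,
            4 ^ s * (avg (T + 1) (V m a s T) - avg (T + 1) (U m a s (T + 1))) := by
        refine Finset.sum_le_sum_of_subset_of_nonneg ?_ fun s _ _ => hnn s
        intro s hs
        simp only [Finset.mem_range] at hs ⊢
        omega
      have h5 : (0 : ℝ) < (1 / 4) ^ (T + 1) := by positivity
      linarith
  have h2 := Finset.sum_le_sum h1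
  rw [Finset.sum_add_distrib, Finset.sum_comm] at h2
  have h3 : ∀ s, ∑ T ∈ Finset.range n,
      (4 : ℝ) ^ s * (avg (T + 1) (V m a s T) - avg (T + 1) (U m a s (T + 1)))
        ≤ (1 / 4) ^ s := by
    intro s
    have h4 : ∀ T, (4 : ℝ) ^ s * (avg (T + 1) (V m a s T) - avg (T + 1) (U m a s (T + 1))) =
        (4 ^ s * (1 / 16) ^ s * avg (T + 1) m - 4 ^ s * avg (T + 1) (U m a s (T + 1))) -
        (4 ^ s * (1 / 16) ^ s * avg T m - 4 ^ s * avg T (U m a s T)) := by
      intro T
      rw [avg_V]; ring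
    simp_rw [h4]
    rw [Finset.sum_range_sub (fun T => (4 : ℝ) ^ s * (1 / 16) ^ s * avg T m -
      4 ^ s * avg T (U m a s T))]
    have h5 : (4 : ℝ) ^ s * (1 / 16) ^ s = (1 / 4) ^ s := by
      rw [← mul_pow]; norm_num
    rw [h5, avg_zero, avg_zero, U_zero]
    have h6 : 0 ≤ avg n (U m a s n) := avg_nonneg fun x _ => U_nonneg s n x
    have h7 : (0 : ℝ) < 4 ^ s := by positivity
    have h8 : (0 : ℝ) < (1 / 4) ^ s := by positivity
    have h9 := havg n
    have h10 : (0 : ℝ) ≤ 4 ^ s * avg n (U m a s n) := by positivity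
    have h11 : (0 : ℝ) ≤ (1 / 4) ^ s * m [] := by positivity
    nlinarith
  have h4 := Finset.sum_le_sum (s := Finset.range n) fun s _ => h3 s
  have h5 := geom_le n
  have h6 : ∑ T ∈ Finset.range n, (1 / 4 : ℝ) ^ (T + 1) ≤ 1 / 3 := by
    have : ∑ T ∈ Finset.range n, (1 / 4 : ℝ) ^ (T + 1) =
        (1 / 4) * ∑ T ∈ Finset.range n, (1 / 4 : ℝ) ^ T := by
      rw [Finset.mul_sum]
      refine Finset.sum_congr rfl fun T _ => ?_
      ring
    rw [this]
    linarith
  linarith

/-- The backlog exceeds `y` iff there was a starting time from which arrivals beat the service. -/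
theorem U_gt_iff (hmono : ∀ x : List Bool, m x.dropLast ≤ m x) (_ha : ∀ T, 0 ≤ a T)
    (s T : ℕ) : ∀ (x : List Bool) (y : ℝ), x.length = T → 0 ≤ y → (y < U m a s T x ↔
      ∃ N < T, 16 ^ s * (∑ t ∈ Finset.Ico N T, a t + y) < m x - m (x.take N)) := by
  induction T with
  | zero =>
    intro x y _ hy
    rw [U_zero]
    constructor
    · intro h; linarith
    · rintro ⟨N, hN, _⟩; omega
  | succ T ih =>
    intro x y hx hy
    have hxd : x.dropLast.length = T := by simp [hx]
    have hq : (0 : ℝ) < (1 / 16) ^ s := by positivity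
    have hp : (0 : ℝ) < 16 ^ s := by positivity
    have hpq : (16 : ℝ) ^ s * (1 / 16) ^ s = 1 := by rw [← mul_pow]; norm_num
    have htk : x.take T = x.dropLast := by
      rw [List.dropLast_eq_take, hx]; rfl
    have htk2 : ∀ N ≤ T, x.dropLast.take N = x.take N := by
      intro N hN
      rw [← htk, List.take_take, min_eq_left hN]
    have h1 : y < U m a s (T + 1) x ↔ y + a T < V m a s T x := by
      rw [U_succ]
      constructor
      · intro h
        rcases lt_max_iff.1 h with h | h
        · linarith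
        · linarith
      · intro h
        exact lt_max_of_lt_left (by linarith)
    rw [h1]
    set δ := (1 / 16) ^ s * (m x - m x.dropLast) with hδ
    have hδ0 : 0 ≤ δ := by
      have := hmono x
      have h0 : 0 ≤ m x - m x.dropLast := by linarith
      positivity
    have hδ' : m x - m x.dropLast = 16 ^ s * δ := by
      rw [hδ, ← mul_assoc, hpq, one_mul]
    have h2 : V m a s T x = U m a s T x.dropLast + δ := rfl
    have hico : ∀ N ≤ T, ∑ t ∈ Finset.Ico N (T + 1), a t = ∑ t ∈ Finset.Ico N T, a t + a T :=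
      fun N hN => Finset.sum_Ico_succ_top hN _
    rw [h2]
    rcases le_or_gt δ (y + a T) with h3 | h3
    · have h4 := ih x.dropLast (y + a T - δ) hxd (by linarith)
      have h5 : y + a T < U m a s T x.dropLast + δ ↔ y + a T - δ < U m a s T x.dropLast := by
        constructor <;> intro h <;> linarith
      rw [h5, h4]
      constructor
      · rintro ⟨N, hN, h6⟩
        refine ⟨N, by omega, ?_⟩
        rw [htk2 N hN.le] at h6
        rw [hico N hN.le]
        have : 16 ^ s * (∑ t ∈ Finset.Ico N T, a t + (y + a T - δ)) =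
          16 ^ s * (∑ t ∈ Finset.Ico N T, a t + a T + y) - 16 ^ s * δ := by ring
        rw [this, ← hδ'] at h6
        linarith
      · rintro ⟨N, hN, h6⟩
        rcases Nat.lt_or_ge N T with h7 | h7
        · refine ⟨N, h7, ?_⟩
          rw [htk2 N h7.le]
          rw [hico N h7.le] at h6
          have : 16 ^ s * (∑ t ∈ Finset.Ico N T, a t + (y + a T - δ)) =
            16 ^ s * (∑ t ∈ Finset.Ico N T, a t + a T + y) - 16 ^ s * δ := by ring
          rw [this, ← hδ']
          linarith
        · exfalso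
          have h8 : N = T := by omega
          subst h8
          rw [hico N le_rfl, htk, hδ'] at h6
          simp only [Finset.Ico_self, Finset.sum_empty, zero_add] at h6
          have := lt_of_mul_lt_mul_left h6 hp.le
          linarith
    · have h4 := U_nonneg (m := m) (a := a) s T x.dropLast
      constructor
      · intro _
        refine ⟨T, by omega, ?_⟩
        rw [hico T le_rfl, htk, hδ']
        simp only [Finset.Ico_self, Finset.sum_empty, zero_add]
        have : a T + y < δ := by linarith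
        gcongr
      · intro _
        linarith

theorem V_gt_iff (hmono : ∀ x : List Bool, m x.dropLast ≤ m x) (ha : ∀ T, 0 ≤ a T)
    (s T : ℕ) (x : List Bool) (y : ℝ) (hx : x.length = T + 1) (hy : 0 ≤ y) :
    y < V m a s T x ↔
      ∃ N < T + 1, 16 ^ s * (∑ t ∈ Finset.Ico N T, a t + y) < m x - m (x.take N) := by
  -- use the statement for `U` with the service at time `T` replaced by zero
  set a' : ℕ → ℝ := fun t => if t < T then a t else 0 with ha'
  have hU : ∀ (T' : ℕ), T' ≤ T → ∀ x : List Bool, U m a s T' x = U m a' s T' x := by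
    intro T'
    induction T' with
    | zero => intro _ x; rfl
    | succ T' ih =>
      intro hT' x
      have h1 : a' T' = a T' := by simp only [ha']; rw [if_pos (by omega)]
      simp only [U]
      rw [ih (by omega), h1]
  have hV : V m a s T x = V m a' s T x := by
    unfold V
    rw [hU T le_rfl]
  have ha'0 : ∀ T, 0 ≤ a' T := by
    intro t
    simp only [ha']
    split_ifs
    · exact ha t
    · exact le_rfl
  have hT0 : a' T = 0 := by simp [ha']
  have h2 := U_gt_iff (a := a') hmono ha'0 s (T + 1) x y hx hy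
  have h3 : y < U m a' s (T + 1) x ↔ y < V m a' s T x := by
    rw [U_succ, hT0, sub_zero, max_eq_left (V_nonneg hmono s T x)]
  rw [hV, ← h3, h2]
  have h4 : ∀ N < T + 1, ∑ t ∈ Finset.Ico N (T + 1), a' t = ∑ t ∈ Finset.Ico N T, a t := by
    intro N hN
    rw [Finset.sum_Ico_succ_top (by omega), hT0, add_zero]
    refine Finset.sum_congr rfl fun t ht => ?_
    simp only [ha']
    rw [if_pos (Finset.mem_Ico.1 ht).2]
  constructor
  · rintro ⟨N, hN, h⟩
    exact ⟨N, hN, by rwa [← h4 N hN]⟩
  · rintro ⟨N, hN, h⟩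
    exact ⟨N, hN, by rwa [h4 N hN]⟩

end Pool.Agent.Lib_helper93.KC
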