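import Mathlib
import Pool.Agent.Lib_helper46.Coding2
import Pool.Agent.Lib_helper93.KC.Comp
import Pool.Agent.Lib_helper93.KC.Sched

set_option autoImplicit false

/-!
Real version of the integer construction; sizes of the sets `W`.
-/

namespace Pool.Agent.Lib_helper93.KC

variable {e : ℕ → Option (List Bool × List Bool)}

/-- Real contribution of the enumerated pair `r` to the mass at time `T` along `x`. -/
noncomputable def tr (T : ℕ) (x : List Bool) (r : List Bool × List Bool) : ℝ :=
  if r.1.length ≤ T ∧ x.take r.2.length = r.2 then 2 ^ r.2.length * (1 / 2) ^ r.1.length else 0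

/-- The mass of the string `x` at time `|x|`. -/
noncomputable def mr (e : ℕ → Option (List Bool × List Bool)) (x : List Bool) : ℝ :=
  ∑ t ∈ Finset.range x.length, ((e t).map (tr x.length x)).getD 0

/-- The service at time `T`. -/
noncomputable def aa (e : ℕ → Option (List Bool × List Bool)) (T : ℕ) : ℝ := (1 / 2) ^ kk e T

theorem aa_pos (T : ℕ) : 0 < aa e T := by unfold aa; positivity

theorem sum_range_list (f : ℕ → ℕ) (T : ℕ) :
    ((List.range T).map f).sum = ∑ t ∈ Finset.range T, f t := by
  induction T with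
  | zero => simp
  | succ T ih => rw [List.range_succ, List.map_append, List.sum_append, ih,
      Finset.sum_range_succ]; simp

theorem two_pow_sub {D j : ℕ} (h : j ≤ D) : (2 : ℝ) ^ (D - j) = 2 ^ D * (1 / 2) ^ j := by
  obtain ⟨i, rfl⟩ := Nat.exists_eq_add_of_le h
  rw [Nat.add_sub_cancel_left, pow_add]
  have : (2 : ℝ) ^ j * (1 / 2) ^ j = 1 := by rw [← mul_pow]; norm_num
  calc (2 : ℝ) ^ i = 2 ^ i * 1 := by ring
    _ = 2 ^ i * (2 ^ j * (1 / 2) ^ j) := by rw [this]
    _ = _ := by ring

theorem tm_cast (T : ℕ) (x : List Bool) (r : List Bool × List Bool) :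
    (tm T x r : ℝ) = 2 ^ T * tr T x r := by
  unfold tm tr
  split_ifs with h
  · push_cast
    rw [pow_add, two_pow_sub h.1]
    ring
  · simp

theorem term_cast (T : ℕ) (x : List Bool) (t : ℕ) :
    (term e T x t : ℝ) = 2 ^ T * ((e t).map (tr T x)).getD 0 := by
  unfold term
  rcases e t with _ | r
  · simp
  · simp [tm_cast]

theorem Mi_cast (x : List Bool) : (Mi e x.length x : ℝ) = 2 ^ x.length * mr e x := by
  unfold Mi mr
  rw [sum_range_list, Finset.mul_sum]
  push_cast
  exact Finset.sum_congr rfl fun t _ => term_cast _ _ _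

theorem ks_length (T : ℕ) : (ks e T).length = T := by
  induction T with
  | zero => rfl
  | succ T ih => simp [ks, ih]

theorem ks_succ (T : ℕ) : ks e (T + 1) = ks e T ++ [kk e T] := rfl

theorem kk_le (T : ℕ) : kk e T ≤ 2 * T + 2 := by
  unfold kk nextk
  have := Nat.findGreatest_le (P := cond e (ks e T)) (2 * (ks e T).length + 2)
  rwa [ks_length] at this ⊢

theorem mem_ks_le {T j : ℕ} (h : j ∈ ks e T) : j ≤ 2 * T := by
  induction T with
  | zero => simp [ks] at h
  | succ T ih =>
    rw [ks_succ, List.mem_append, List.mem_singleton] at h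
    rcases h with h | h
    · have := ih h; omega
    · have := kk_le (e := e) T; omega

theorem drop_ks_succ {T N : ℕ} (h : N ≤ T) :
    (ks e (T + 1)).drop N = (ks e T).drop N ++ [kk e T] := by
  rw [ks_succ, List.drop_append_of_le_length (by rw [ks_length]; exact h)]

theorem sum_drop {T N D : ℕ} (hN : N ≤ T) (hD : 2 * T ≤ D) :
    ((((ks e T).drop N).map (fun j => 2 ^ (D - j))).sum : ℕ) =
      (2 : ℝ) ^ D * ∑ t ∈ Finset.Ico N T, aa e t := by
  induction T with
  | zero =>
    simp [ks]
  | succ T ih =>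
    rcases Nat.lt_or_ge T N with h | h
    · have h1 : N = T + 1 := by omega
      subst h1
      rw [List.drop_eq_nil_of_le (by rw [ks_length])]
      simp
    · rw [drop_ks_succ h, List.map_append, List.sum_append, Nat.cast_add, ih h (by omega),
        Finset.sum_Ico_succ_top h, mul_add]
      congr 1
      simp only [List.map_cons, List.map_nil, List.sum_cons, List.sum_nil, add_zero]
      push_cast
      rw [two_pow_sub (by have := kk_le (e := e) T; omega)]
      rfl

theorem badN_iff {T s z N : ℕ} {x : List Bool} (hT : T ≤ x.length) (hN : N ≤ T)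
    (hN' : N < x.length) :
    badN e ((ks e T, z), s) x N ↔
      16 ^ s * (∑ t ∈ Finset.Ico N T, aa e t + z / 2 ^ (2 * x.length + 2)) <
        mr e x - mr e (x.take N) := by
  unfold badN
  simp only
  set D := 2 * x.length + 2 with hD
  have htl : (x.take N).length = N := by simp [hN'.le]
  have h1 : ((Mi e N (x.take N) * 2 ^ (D - N) : ℕ) : ℝ) = 2 ^ D * mr e (x.take N) := by
    push_cast
    have := Mi_cast (e := e) (x.take N)
    rw [htl] at this
    rw [this, two_pow_sub (by omega)]
    have : (2 : ℝ) ^ N * (1 / 2) ^ N = 1 := by rw [← mul_pow]; norm_num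
    calc _ = (2 ^ D * mr e (x.take N)) * (2 ^ N * (1 / 2) ^ N) := by ring
      _ = _ := by rw [this, mul_one]
  have h2 : ((Mi e x.length x * 2 ^ (x.length + 2) : ℕ) : ℝ) = 2 ^ D * mr e x := by
    push_cast
    rw [Mi_cast, hD]
    ring
  have h3 : ((2 ^ (4 * s) : ℕ) : ℝ) = 16 ^ s := by
    push_cast
    rw [pow_mul]; norm_num
  have h4 := sum_drop (e := e) (D := D) hN (by omega)
  have hp : (0 : ℝ) < 2 ^ D := by positivity
  rw [← Nat.cast_lt (α := ℝ), Nat.cast_add, h1, h2, Nat.cast_mul, h3, Nat.cast_add, h4]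
  have h5 : (2 : ℝ) ^ D * mr e (List.take N x) + 16 ^ s * (2 ^ D * ∑ t ∈ Finset.Ico N T, aa e t + z)
      = 2 ^ D * (mr e (x.take N) + 16 ^ s * (∑ t ∈ Finset.Ico N T, aa e t + z / 2 ^ D)) := by
    field_simp
  rw [h5]
  constructor
  · intro h
    have := lt_of_mul_lt_mul_left h hp.le
    linarith
  · intro h
    refine mul_lt_mul_of_pos_left ?_ hp
    linarith

/-! ### Properties of the mass -/

theorem tr_nonneg (T : ℕ) (x : List Bool) (r : List Bool × List Bool) : 0 ≤ tr T x r := by
  unfold tr; split_ifs <;> positivity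

theorem getD_nonneg (T : ℕ) (x : List Bool) (t : ℕ) : 0 ≤ ((e t).map (tr T x)).getD 0 := by
  rcases e t with _ | r
  · simp
  · simpa using tr_nonneg T x r

theorem mr_nil : mr e [] = 0 := by simp [mr]

theorem tr_dropLast (x : List Bool) (r : List Bool × List Bool) :
    tr x.dropLast.length x.dropLast r ≤ tr x.length x r := by
  unfold tr
  split_ifs with h1 h2 h2
  · exact le_rfl
  · exfalso
    apply h2
    refine ⟨?_, ?_⟩
    · have := h1.1
      simp at this
      omega
    · have hx := h1.2
      have hl : r.2.length ≤ x.dropLast.length := by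
        have := congrArg List.length hx
        simp only [List.length_take] at this
        omega
      have h3 : x.dropLast.take r.2.length = x.take r.2.length := by
        rw [List.dropLast_eq_take, List.take_take]
        congr 1
        simp at hl
        omega
      rw [← h3, hx]
  · positivity
  · exact le_rfl

theorem mr_mono (x : List Bool) : mr e x.dropLast ≤ mr e x := by
  unfold mr
  calc ∑ t ∈ Finset.range x.dropLast.length, ((e t).map (tr x.dropLast.length x.dropLast)).getD 0
      ≤ ∑ t ∈ Finset.range x.dropLast.length, ((e t).map (tr x.length x)).getD 0 := by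
        refine Finset.sum_le_sum fun t _ => ?_
        rcases e t with _ | r
        · simp
        · simpa using tr_dropLast x r
    _ ≤ _ := by
        refine Finset.sum_le_sum_of_subset_of_nonneg ?_ fun t _ _ => getD_nonneg _ _ _
        intro t ht
        simp only [Finset.mem_range, List.length_dropLast] at ht ⊢
        omega

theorem avg_tr_le (T : ℕ) (r : List Bool × List Bool) :
    avg T (fun x => tr T x r) ≤ (1 / 2) ^ r.1.length := by
  by_cases h : r.1.length ≤ T
  · have h1 : ∀ x : List Bool, x.length = T → tr T x r =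
        (2 ^ r.2.length * (1 / 2) ^ r.1.length) * (if x.take r.2.length = r.2 then 1 else 0) := by
      intro x _
      unfold tr
      by_cases h2 : x.take r.2.length = r.2
      · rw [if_pos ⟨h, h2⟩, if_pos h2, mul_one]
      · rw [if_neg (fun h3 => h2 h3.2), if_neg h2, mul_zero]
    rw [avg_congr h1, avg_const_mul]
    rcases Nat.lt_or_ge T r.2.length with h3 | h3
    · rw [avg_prefix_of_lt _ _ h3, mul_zero]
      positivity
    · rw [avg_prefix _ _ h3]
      have : (2 : ℝ) ^ r.2.length * (1 / 2) ^ r.2.length = 1 := by rw [← mul_pow]; norm_num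
      calc _ = (2 ^ r.2.length * (1 / 2) ^ r.2.length) * (1 / 2 : ℝ) ^ r.1.length := by ring
        _ ≤ _ := by rw [this, one_mul]
  · have h1 : ∀ x : List Bool, x.length = T → tr T x r = 0 := by
      intro x _
      unfold tr
      rw [if_neg (fun h3 => h h3.1)]
    rw [avg_congr h1, avg_const]
    positivity

theorem avg_mr_le
    (hpf : ∀ s t p q x y, e s = some (p, x) → e t = some (q, y) → p <+: q → p = q)
    (hinj : ∀ s t p x x', e s = some (p, x) → e t = some (p, x') → s = t) (T : ℕ) :
    avg T (mr e) ≤ 1 := by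
  have h1 : avg T (mr e) = avg T (fun x => ∑ t ∈ Finset.range T, ((e t).map (tr T x)).getD 0) := by
    refine avg_congr fun x hx => ?_
    unfold mr
    rw [hx]
  rw [h1, avg_sum]
  refine le_trans (Finset.sum_le_sum fun t _ => ?_) (Lib_helper46.prog_sum_le hpf hinj T)
  rcases e t with _ | r
  · simp [avg_const]
  · simpa using avg_tr_le T r

/-! ### The rule for the service -/

theorem Bad_iff_V {T s k : ℕ} {x : List Bool} (hx : x.length = T + 1) (hk : k ≤ 2 * T + 2) :
    Bad e x ((ks e T, 2 ^ (2 * (T + 1) + 2 - k)), s) ↔ (1 / 2) ^ k < V (mr e) (aa e) s T x := by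
  rw [V_gt_iff mr_mono (fun t => (aa_pos t).le) s T x _ hx (by positivity)]
  unfold Bad
  have hz : (((2 ^ (2 * (T + 1) + 2 - k) : ℕ)) : ℝ) / 2 ^ (2 * x.length + 2) = (1 / 2) ^ k := by
    rw [hx]
    push_cast
    rw [two_pow_sub (by omega)]
    field_simp
  constructor
  · rintro ⟨N, hN, h⟩
    rw [List.mem_range, hx] at hN
    refine ⟨N, hN, ?_⟩
    rw [badN_iff (by omega) (by omega) (by omega), hz] at h
    exact h
  · rintro ⟨N, hN, h⟩
    refine ⟨N, by rw [List.mem_range, hx]; exact hN, ?_⟩
    rw [badN_iff (by omega) (by omega) (by omega), hz]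
    exact h

theorem cond_iff {T k : ℕ} (hk : k ≤ 2 * T + 2) :
    cond e (ks e T) k ↔ Phi (mr e) (aa e) T ((1 / 2) ^ k) ≤ 2 := by
  classical
  unfold cond
  rw [ks_length, ← Nat.cast_le (α := ℝ), sum_range_list]
  have h1 : ∀ s, ((2 ^ (2 * s) * count e (T + 1) ((ks e T, 2 ^ (2 * (T + 1) + 2 - k)), s) : ℕ) : ℝ)
      = 2 ^ (T + 1) * (4 ^ s * avg (T + 1)
        (fun x => if (1 / 2) ^ k < V (mr e) (aa e) s T x then 1 else 0)) := by
    intro s
    have h2 : avg (T + 1) (fun x => if (1 / 2) ^ k < V (mr e) (aa e) s T x then (1 : ℝ) else 0)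
        = avg (T + 1) (fun x => if Bad e x ((ks e T, 2 ^ (2 * (T + 1) + 2 - k)), s)
          then (1 : ℝ) else 0) := by
      refine avg_congr fun x hx => ?_
      by_cases h : Bad e x ((ks e T, 2 ^ (2 * (T + 1) + 2 - k)), s)
      · rw [if_pos h, if_pos ((Bad_iff_V hx hk).1 h)]
      · rw [if_neg h, if_neg (fun h' => h ((Bad_iff_V hx hk).2 h'))]
    rw [h2, avg_ind]
    unfold count
    push_cast
    rw [pow_mul]
    norm_num
    field_simp
  have h3 : ((∑ s ∈ Finset.range (T + 1), 2 ^ (2 * s) *
      count e (T + 1) ((ks e T, 2 ^ (2 * (T + 1) + 2 - k)), s) : ℕ) : ℝ) =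
      2 ^ (T + 1) * Phi (mr e) (aa e) T ((1 / 2) ^ k) := by
    unfold Phi
    rw [Nat.cast_sum, Finset.mul_sum]
    exact Finset.sum_congr rfl fun s _ => h1 s
  rw [h3]
  push_cast
  have hp : (0 : ℝ) < 2 ^ (T + 1) := by positivity
  constructor
  · intro h
    have : (2 : ℝ) ^ (T + 1) * Phi (mr e) (aa e) T ((1 / 2) ^ k) ≤ 2 ^ (T + 1) * 2 := by linarith
    exact le_of_mul_le_mul_left this hp
  · intro h
    have := mul_le_mul_of_nonneg_left h hp.le
    linarith

theorem cond_kk
    (hpf : ∀ s t p q x y, e s = some (p, x) → e t = some (q, y) → p <+: q → p = q)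
    (hinj : ∀ s t p x x', e s = some (p, x) → e t = some (p, x') → s = t) (T : ℕ) :
    cond e (ks e T) (kk e T) := by
  have h0 : cond e (ks e T) 0 := by
    rw [cond_iff (by omega), pow_zero]
    exact Phi_one mr_nil.ge mr_mono (avg_mr_le hpf hinj) (fun t => (aa_pos t).le) T
  exact Nat.findGreatest_spec (P := cond e (ks e T)) (Nat.zero_le _) h0

theorem aa_sum_le
    (hpf : ∀ s t p q x y, e s = some (p, x) → e t = some (q, y) → p <+: q → p = q)
    (hinj : ∀ s t p x x', e s = some (p, x) → e t = some (p, x') → s = t) (n : ℕ) :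
    ∑ T ∈ Finset.range n, aa e T ≤ 2 := by
  refine total_le mr_nil.ge mr_mono (avg_mr_le hpf hinj) aa_pos ?_ n
  intro T
  rcases Nat.lt_or_ge (kk e T) (2 * T + 2) with h | h
  · right
    have h1 : ¬ cond e (ks e T) (kk e T + 1) := by
      refine Nat.findGreatest_is_greatest (P := cond e (ks e T)) (n := 2 * (ks e T).length + 2) ?_ ?_
      · exact Nat.lt_succ_self _
      · rw [ks_length]; omega
    rw [cond_iff (by omega)] at h1
    push Not at h1
    have h2 : aa e T / 2 = (1 / 2) ^ (kk e T + 1) := by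
      unfold aa; rw [pow_succ]; ring
    rw [h2]
    exact h1
  · left
    have h1 : kk e T = 2 * (T + 1) := by have := kk_le (e := e) T; omega
    unfold aa
    rw [h1, pow_mul]
    norm_num

/-! ### The sets `W` -/

theorem mem_W {s n : ℕ} {x : List Bool} :
    x ∈ W e s n ↔ x.length = n ∧ Bad e x ((ks e n, 0), s) := by
  unfold W
  rw [List.mem_filter, mem_strs]
  simp

theorem mem_W_iff {s n : ℕ} {x : List Bool} (hx : x.length = n) :
    x ∈ W e s n ↔ ∃ N < n, 16 ^ s * ∑ t ∈ Finset.Ico N n, aa e t < mr e x - mr e (x.take N) := by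
  rw [mem_W]
  unfold Bad
  constructor
  · rintro ⟨_, N, hN, h⟩
    rw [List.mem_range, hx] at hN
    rw [badN_iff (by omega) (by omega) (by omega)] at h
    refine ⟨N, hN, ?_⟩
    simpa using h
  · rintro ⟨N, hN, h⟩
    refine ⟨hx, N, by rw [List.mem_range, hx]; exact hN, ?_⟩
    rw [badN_iff (by omega) (by omega) (by omega)]
    simpa using h

theorem W_card
    (hpf : ∀ s t p q x y, e s = some (p, x) → e t = some (q, y) → p <+: q → p = q)
    (hinj : ∀ s t p x x', e s = some (p, x) → e t = some (p, x') → s = t) {s n : ℕ} (h : s < n) :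
    2 ^ (2 * s) * (W e s n).length ≤ 2 ^ (n + 1) := by
  obtain ⟨T, rfl⟩ : ∃ T, n = T + 1 := ⟨n - 1, by omega⟩
  have h1 := cond_kk hpf hinj T
  unfold cond at h1
  rw [ks_length, sum_range_list] at h1
  have h2 := Finset.single_le_sum (f := fun s => 2 ^ (2 * s) * count e (T + 1)
    ((ks e T, 2 ^ (2 * (T + 1) + 2 - kk e T)), s)) (fun s _ => Nat.zero_le _)
    (Finset.mem_range.2 h)
  have h3 : (W e s (T + 1)).length = count e (T + 1)
      ((ks e T, 2 ^ (2 * (T + 1) + 2 - kk e T)), s) := by
    unfold W count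
    congr 1
    refine List.filter_congr fun x hx => ?_
    rw [mem_strs] at hx
    rw [decide_eq_decide]
    unfold Bad
    have h4 : ∀ N ∈ List.range x.length, (badN e ((ks e (T + 1), 0), s) x N ↔
        badN e ((ks e T, 2 ^ (2 * (T + 1) + 2 - kk e T)), s) x N) := by
      intro N hN
      rw [List.mem_range, hx] at hN
      unfold badN
      simp only
      rw [drop_ks_succ (by omega), List.map_append, List.sum_append, hx]
      simp
    constructor
    · rintro ⟨N, hN, h⟩; exact ⟨N, hN, (h4 N hN).1 h⟩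
    · rintro ⟨N, hN, h⟩; exact ⟨N, hN, (h4 N hN).2 h⟩
  rw [h3]
  calc _ ≤ _ := h2
    _ ≤ _ := h1
    _ = 2 ^ (T + 1 + 1) := by ring

theorem W_anti {s s' n : ℕ} {x : List Bool} (h : s' ≤ s) (hx : x ∈ W e s n) : x ∈ W e s' n := by
  have hl := (mem_W.1 hx).1
  rw [mem_W_iff hl] at hx ⊢
  obtain ⟨N, hN, h1⟩ := hx
  refine ⟨N, hN, lt_of_le_of_lt ?_ h1⟩
  have h2 : 0 ≤ ∑ t ∈ Finset.Ico N n, aa e t := Finset.sum_nonneg fun t _ => (aa_pos t).le
  gcongr
  norm_num

end Pool.Agent.Lib_helper93.KC
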