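import Mathlib
import Pool.Agent.Lib_helper46.Plain
import Pool.Agent.Lib_helper46.KDefs
import Pool.Agent.Lib_helper46.KMain
import Pool.Agent.Lib_helper93.KC.Link
import Pool.Agent.Lib_helper93.KC.Defs

set_option autoImplicit false

/-!
(B1) implies (A1): the proof.
-/

namespace Pool.Agent.Lib_helper93.KC

open MeasureTheory Pool.Agent.Lib_helper46.Measures
open Pool.Agent.Lib_helper46 (lead rest val lead_primrec rest_primrec val_primrec exists_val)

variable {e : ℕ → Option (List Bool × List Bool)}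

/-! ### The plain machine -/

/-- The length read off from the input. -/
def lenN (s : List Bool) : ℕ := (rest s).length + 2 * lead s - 1

/-- The plain machine, as a total function with optional values. -/
def qM (e : ℕ → Option (List Bool × List Bool)) (s : List Bool) : Option (List Bool) :=
  (W e (lead s) (lenN s))[val (rest s)]?

theorem qM_primrec (he : Primrec e) : Primrec (qM e) := by
  unfold qM lenN
  exact Primrec.list_getElem?.comp ((W_primrec he).comp lead_primrec
    (Primrec.nat_sub.comp (Primrec.nat_add.comp (Primrec.list_length.comp rest_primrec)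
      (Primrec.nat_mul.comp (Primrec.const 2) lead_primrec)) (Primrec.const 1)))
    (val_primrec.comp rest_primrec)

/-- The plain machine. -/
def qP (e : ℕ → Option (List Bool × List Bool)) : List Bool →. List Bool :=
  fun s => (qM e s : Part (List Bool))

theorem qP_partrec (he : Primrec e) : Partrec (qP e) :=
  Computable.ofOption (qM_primrec he).to_comp

theorem qP_spec
    (hpf : ∀ s t p q x y, e s = some (p, x) → e t = some (q, y) → p <+: q → p = q)
    (hinj : ∀ s t p x x', e s = some (p, x) → e t = some (p, x') → s = t)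
    {s n : ℕ} {x : List Bool} (hs : s < n) (hx : x ∈ W e s n) :
    ∃ D : List Bool, D.length + s = n + 2 ∧ x ∈ qP e D := by
  have hc := W_card hpf hinj hs
  obtain ⟨i, hi⟩ := List.mem_iff_getElem?.1 hx
  have hil : i < (W e s n).length := by
    by_contra hcon
    push Not at hcon
    rw [List.getElem?_eq_none hcon] at hi
    exact absurd hi (by simp)
  have h2s : 2 * s ≤ n + 1 := by
    by_contra hcon
    push Not at hcon
    have h1 : 2 ^ (n + 1) < 2 ^ (2 * s) := Nat.pow_lt_pow_right (by norm_num) hcon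
    have h2 : 2 ^ (2 * s) * 1 ≤ 2 ^ (2 * s) * (W e s n).length := by
      gcongr; omega
    omega
  have hlt : (W e s n).length ≤ 2 ^ (n + 1 - 2 * s) := by
    have h1 : 2 ^ (n + 1) = 2 ^ (2 * s) * 2 ^ (n + 1 - 2 * s) := by
      rw [← pow_add]; congr 1; omega
    rw [h1] at hc
    exact Nat.le_of_mul_le_mul_left hc (by positivity)
  obtain ⟨u, hu1, hu2⟩ := exists_val (n + 1 - 2 * s) i (by omega)
  set D := List.replicate s true ++ false :: u with hD
  have h1 : lead D = s := by
    unfold lead
    rw [hD, List.takeWhile_append_of_pos (by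
      intro a ha; rw [List.mem_replicate] at ha; simp [ha.2])]
    simp
  have h2 : rest D = u := by
    unfold rest
    rw [h1, hD]
    have : List.replicate s true ++ false :: u
        = (List.replicate s true ++ [false]) ++ u := by simp
    rw [this]
    exact List.drop_left' (by simp)
  refine ⟨D, ?_, ?_⟩
  · rw [hD]
    simp only [List.length_append, List.length_replicate, List.length_cons]
    omega
  · have h3 : lenN D = n := by
      unfold lenN
      rw [h1, h2, hu1]
      omega
    have h4 : qM e D = some x := by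
      unfold qM
      rw [h3, h1, h2, hu2, hi]
    unfold qP
    rw [h4]
    exact Part.mem_some x

/-- Pointwise consequence: large backlog level means compressibility. -/
theorem level_exists {U : List Bool →. List Bool} (hU : IsUniversalPlain U) (he : Primrec e)
    (hpf : ∀ s t p q x y, e s = some (p, x) → e t = some (q, y) → p <+: q → p = q)
    (hinj : ∀ s t p x x', e s = some (p, x) → e t = some (p, x') → s = t) :
    ∃ c : ℕ, ∀ (T : ℕ) (x : List Bool), 4 ≤ T → x.length = T →
      ∃ S : ℕ, complexity U x + S ≤ T + c ∧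
        ∀ N < T, mr e x - mr e (x.take N) ≤ 16 ^ S * ∑ t ∈ Finset.Ico N T, aa e t := by
  obtain ⟨c2, hc2⟩ := hU.optimal _ (qP_partrec he)
  obtain ⟨c0, hc0⟩ := plain_id hU
  refine ⟨max c0 (c2 + 3), fun T x hT hx => ?_⟩
  classical
  have hex : ∃ s, x ∉ W e s T := by
    refine ⟨T - 1, fun hmem => ?_⟩
    have hc := W_card hpf hinj (s := T - 1) (n := T) (by omega)
    have hpos : 0 < (W e (T - 1) T).length := List.length_pos_of_mem hmem
    have h1 : 2 ^ (T + 1) < 2 ^ (2 * (T - 1)) := Nat.pow_lt_pow_right (by norm_num) (by omega)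
    have h2 : 2 ^ (2 * (T - 1)) * 1 ≤ 2 ^ (2 * (T - 1)) * (W e (T - 1) T).length := by
      gcongr; omega
    omega
  set S := Nat.find hex with hS
  have hSn : x ∉ W e S T := Nat.find_spec hex
  refine ⟨S, ?_, ?_⟩
  · rcases Nat.eq_zero_or_pos S with h0 | h0
    · have := hc0 x
      rw [hx] at this
      have h3 := le_max_left c0 (c2 + 3)
      omega
    · obtain ⟨S', hS'⟩ : ∃ S', S = S' + 1 := ⟨S - 1, by omega⟩
      have hmem : x ∈ W e S' T := by
        have := Nat.find_min hex (m := S') (by omega)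
        push Not at this
        exact this
      have hlt : S' < T := by
        by_contra hcon
        push Not at hcon
        have h1 := W_anti (s' := T - 1) (by omega) hmem
        have hc := W_card hpf hinj (s := T - 1) (n := T) (by omega)
        have hpos : 0 < (W e (T - 1) T).length := List.length_pos_of_mem h1
        have h1 : 2 ^ (T + 1) < 2 ^ (2 * (T - 1)) := Nat.pow_lt_pow_right (by norm_num) (by omega)
        have h2 : 2 ^ (2 * (T - 1)) * 1 ≤ 2 ^ (2 * (T - 1)) * (W e (T - 1) T).length := by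
          gcongr; omega
        omega
      obtain ⟨D, hD1, hD2⟩ := qP_spec hpf hinj hlt hmem
      obtain ⟨q, hq, hq'⟩ := hc2 D x hD2
      have h1 := complexity_le hq
      have h3 := le_max_right c0 (c2 + 3)
      omega
  · intro N hN
    rw [mem_W_iff hx] at hSn
    push Not at hSn
    exact hSn N hN

/-! ### The service is bounded by the a priori weights -/

theorem kk_ge {V : List Bool →. List Bool} (hV : IsUniversalPrefixFree V) (he : Primrec e)
    (hpf : ∀ s t p q x y, e s = some (p, x) → e t = some (q, y) → p <+: q → p = q)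
    (hinj : ∀ s t p x x', e s = some (p, x) → e t = some (p, x') → s = t) :
    ∃ c : ℕ, ∀ T, complexity V (binCode (T + 1)) ≤ kk e T + c := by
  have hreq : Computable (fun i : ℕ => some (binCode (i + 1), kk e i + 1)) :=
    Computable.option_some.comp ((binCode_computable.comp Computable.succ).pair
      (Computable.succ.comp (kk_primrec he).to_comp))
  have hsum : ∀ N, ∑ i ∈ Finset.range N,
      Lib_helper46.wt ((fun i : ℕ => some (binCode (i + 1), kk e i + 1)) i) ≤ 1 := by
    intro N
    have h1 := aa_sum_le hpf hinj N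
    have h2 : ∀ i, Lib_helper46.wt ((fun i : ℕ => some (binCode (i + 1), kk e i + 1)) i) =
        aa e i * (1 / 2) := by
      intro i
      unfold aa
      change (1 / 2 : ℝ) ^ (kk e i + 1) = _
      rw [pow_succ]
    simp_rw [h2]
    rw [← Finset.sum_mul]
    linarith
  obtain ⟨M, hM1, hM2, hM3⟩ := Lib_helper46.kraft_chaitin hreq hsum
  obtain ⟨c1, hc1⟩ := hV.optimal M hM1 hM2
  refine ⟨2 + c1, fun T => ?_⟩
  obtain ⟨σ, hσ, hσ'⟩ := hM3 T _ _ rfl
  obtain ⟨q, hq, hq'⟩ := hc1 σ _ hσ'
  have := complexity_le hq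
  omega

/-- From every starting time on, half of the service is provided in bounded time. -/
theorem half_service
    (hpf : ∀ s t p q x y, e s = some (p, x) → e t = some (q, y) → p <+: q → p = q)
    (hinj : ∀ s t p x x', e s = some (p, x) → e t = some (p, x') → s = t) (N : ℕ) :
    ∃ M, N < M ∧ ∀ T, ∑ t ∈ Finset.Ico N T, aa e t ≤ 2 * ∑ t ∈ Finset.Ico N M, aa e t := by
  set g : ℕ → ℝ := fun T => ∑ t ∈ Finset.Ico N T, aa e t with hg
  have hb : BddAbove (Set.range g) := by
    refine ⟨2, ?_⟩
    rintro _ ⟨T, rfl⟩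
    refine le_trans ?_ (aa_sum_le hpf hinj T)
    refine Finset.sum_le_sum_of_subset_of_nonneg ?_ fun t _ _ => (aa_pos t).le
    intro t ht
    simp only [Finset.mem_Ico, Finset.mem_range] at ht ⊢
    exact ht.2
  have hpos : 0 < ⨆ T, g T := by
    refine lt_of_lt_of_le ?_ (le_ciSup hb (N + 1))
    simp only [hg, Nat.Ico_succ_singleton, Finset.sum_singleton]
    exact aa_pos N
  obtain ⟨M, hM⟩ := exists_lt_of_lt_ciSup (f := g) (show (⨆ T, g T) / 2 < ⨆ T, g T by linarith)
  refine ⟨M, ?_, fun T => ?_⟩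
  · by_contra hcon
    push Not at hcon
    have : g M = 0 := by
      simp only [hg]
      rw [Finset.Ico_eq_empty_of_le hcon, Finset.sum_empty]
    rw [this] at hM
    linarith
  · have := le_ciSup hb T
    change g T ≤ 2 * g M
    linarith

/-! ### The mass along a sequence -/

theorem pre_take (ω : ℕ → Bool) {n m : ℕ} (h : n ≤ m) : (pre ω m).take n = pre ω n := by
  obtain ⟨z, hz, hs⟩ := pre_split ω h
  rw [hs, List.take_left' (pre_length ω n)]

theorem exists_time {V : List Bool →. List Bool} (hV : IsUniversalPrefixFree V)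
    (he2 : ∀ p x, x ∈ V p → ∃ s, e s = some (p, x)) (M : ℕ) :
    ∃ T0, ∀ x : List Bool, x.length ≤ M → ∃ t < T0, ∃ p : List Bool,
      e t = some (p, x) ∧ p.length = complexity V x ∧ p.length ≤ T0 := by
  have h1 : ∀ x : List Bool, ∃ t, ∃ p : List Bool, e t = some (p, x) ∧
      p.length = complexity V x := by
    intro x
    obtain ⟨p, hp, hpx⟩ := complexity_spec (prefix_total hV x)
    obtain ⟨t, ht⟩ := he2 p x hpx
    exact ⟨t, p, ht, hp⟩
  choose τ π h2 h3 using h1
  have hfin : Set.Finite {x : List Bool | x.length ≤ M} := List.finite_length_le Bool M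
  obtain ⟨B, hB⟩ := (hfin.image (fun x => τ x + (π x).length + 1)).bddAbove
  refine ⟨B, fun x hx => ?_⟩
  have h4 : τ x + (π x).length + 1 ≤ B := hB ⟨x, hx, rfl⟩
  exact ⟨τ x, by omega, π x, h2 x, h3 x, by omega⟩

theorem tr_mono_pre (ω : ℕ → Bool) {N T : ℕ} (h : N ≤ T) (r : List Bool × List Bool) :
    tr N (pre ω N) r ≤ tr T (pre ω T) r := by
  unfold tr
  split_ifs with h1 h2 h2
  · exact le_rfl
  · exfalso
    apply h2
    refine ⟨by omega, ?_⟩
    have hl : r.2.length ≤ N := by
      have := congrArg List.length h1.2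
      simp only [List.length_take, pre_length] at this
      omega
    rw [pre_take ω (by omega : r.2.length ≤ T), ← pre_take ω hl]
    exact h1.2
  · positivity
  · exact le_rfl

theorem mass_ge {V : List Bool →. List Bool} (ω : ℕ → Bool) {N M T : ℕ} (hMT : M ≤ T)
    (hNM : N ≤ M)
    (hT : ∀ x : List Bool, x.length ≤ M → ∃ t < T, ∃ p : List Bool,
      e t = some (p, x) ∧ p.length = complexity V x ∧ p.length ≤ T) :
    ∑ t ∈ Finset.Ico N M, (2 : ℝ) ^ (t + 1) * (1 / 2) ^ complexity V (pre ω (t + 1)) ≤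
      mr e (pre ω T) - mr e (pre ω N) := by
  classical
  set A : ℕ → ℝ := fun t => ((e t).map (tr T (pre ω T))).getD 0 with hA
  set B : ℕ → ℝ := fun t => ((e t).map (tr N (pre ω N))).getD 0 with hB
  have hB0 : ∀ t, 0 ≤ B t := fun t => getD_nonneg _ _ _
  have hBA : ∀ t, B t ≤ A t := by
    intro t
    simp only [hA, hB]
    rcases e t with _ | r
    · simp
    · simpa using tr_mono_pre ω (hNM.trans hMT) r
  have h1 : mr e (pre ω T) = ∑ t ∈ Finset.range T, A t := by
    unfold mr; rw [pre_length]
  have h2 : mr e (pre ω N) ≤ ∑ t ∈ Finset.range T, B t := by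
    unfold mr
    rw [pre_length]
    refine Finset.sum_le_sum_of_subset_of_nonneg ?_ fun t _ _ => hB0 t
    intro t ht
    simp only [Finset.mem_range] at ht ⊢
    omega
  have h3 : ∑ t ∈ Finset.range T, (A t - B t) ≤ mr e (pre ω T) - mr e (pre ω N) := by
    rw [Finset.sum_sub_distrib, h1]
    linarith
  refine le_trans ?_ h3
  have h4 : ∀ n : ℕ, ∃ t, n ∈ Finset.Ico N M → (t < T ∧ ∃ p : List Bool,
      e t = some (p, pre ω (n + 1)) ∧ p.length = complexity V (pre ω (n + 1)) ∧
        p.length ≤ T) := by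
    intro n
    by_cases hn : n ∈ Finset.Ico N M
    · rw [Finset.mem_Ico] at hn
      obtain ⟨t, ht, p, hp⟩ := hT (pre ω (n + 1)) (by rw [pre_length]; omega)
      exact ⟨t, fun _ => ⟨ht, p, hp⟩⟩
    · exact ⟨0, fun h => absurd h hn⟩
  choose τ hτ using h4
  have hinj : Set.InjOn τ (Finset.Ico N M : Set ℕ) := by
    intro a ha b hb hab
    obtain ⟨_, p, hp, _⟩ := hτ a (Finset.mem_coe.1 ha)
    obtain ⟨_, q, hq, _⟩ := hτ b (Finset.mem_coe.1 hb)
    rw [hab, hq] at hp
    simp only [Option.some.injEq, Prod.mk.injEq] at hp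
    have := congrArg List.length hp.2
    simp only [pre_length] at this
    omega
  have h5 : ∀ n ∈ Finset.Ico N M,
      (2 : ℝ) ^ (n + 1) * (1 / 2) ^ complexity V (pre ω (n + 1)) = A (τ n) - B (τ n) := by
    intro n hn
    obtain ⟨ht, p, hp, hpl, hpT⟩ := hτ n hn
    rw [Finset.mem_Ico] at hn
    simp only [hA, hB, hp, Option.map_some, Option.getD_some]
    unfold tr
    simp only [pre_length]
    rw [if_pos ⟨hpT, pre_take ω (by omega)⟩, if_neg, hpl, sub_zero]
    rintro ⟨_, h⟩
    have := congrArg List.length h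
    simp only [List.length_take, pre_length] at this
    omega
  rw [Finset.sum_congr rfl h5, ← Finset.sum_image (f := fun t => A t - B t) hinj]
  refine Finset.sum_le_sum_of_subset_of_nonneg ?_ fun t _ _ => by linarith [hBA t]
  intro t ht
  rw [Finset.mem_image] at ht
  obtain ⟨n, hn, rfl⟩ := ht
  exact Finset.mem_range.2 (hτ n hn).1

theorem sub_le_pow (A B : ℕ) : (A : ℝ) - B ≤ 2 ^ A * (1 / 2) ^ B := by
  rcases Nat.le_total A B with h | h
  · have h1 : (A : ℝ) ≤ B := by exact_mod_cast h
    have h2 : (0 : ℝ) < 2 ^ A * (1 / 2) ^ B := by positivity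
    linarith
  · rw [← two_pow_sub h]
    have h1 : A - B < 2 ^ (A - B) := Nat.lt_two_pow_self
    have h2 : ((A - B : ℕ) : ℝ) < ((2 ^ (A - B) : ℕ) : ℝ) := by exact_mod_cast h1
    rw [Nat.cast_sub h] at h2
    push_cast at h2
    linarith

/-- (B1) implies (A1). -/
theorem b1_implies_a1 (U V : List Bool →. List Bool) (hU : IsUniversalPlain U)
    (hV : IsUniversalPrefixFree V) (μ : Measure (ℕ → Bool)) [IsProbabilityMeasure μ]
    (h : B1 U μ) : A1 V μ := by
  obtain ⟨c, hc⟩ := h
  obtain ⟨e, he, he1, he2, he3⟩ := Lib_helper46.exists_enum hV.partrec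
  have hpf : ∀ s t p q x y, e s = some (p, x) → e t = some (q, y) → p <+: q → p = q := by
    intro s t p q x y hs ht hpq
    exact hV.prefixFree p q (Part.dom_iff_mem.2 ⟨x, he1 s p x hs⟩)
      (Part.dom_iff_mem.2 ⟨y, he1 t q y ht⟩) hpq
  obtain ⟨c', hc'⟩ := level_exists hU he hpf he3
  obtain ⟨c1, hc1⟩ := kk_ge hV he hpf he3
  refine ⟨4 * (c + c') + c1 + 2, ?_⟩
  rw [Filter.frequently_atTop]
  intro N
  obtain ⟨M, hNM, hM⟩ := half_service hpf he3 N
  obtain ⟨T0, hT0⟩ := exists_time hV he2 M
  rw [Filter.frequently_atTop] at hc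
  obtain ⟨T, hT, hcT⟩ := hc (max T0 (max M 4))
  have hTT0 : T0 ≤ T := le_trans (le_max_left _ _) hT
  have hTM : M ≤ T := le_trans (le_trans (le_max_left _ _) (le_max_right _ _)) hT
  have hT4 : 4 ≤ T := le_trans (le_trans (le_max_right _ _) (le_max_right _ _)) hT
  set w : ℕ → ℝ := fun t => (1 / 2) ^ complexity V (binCode (t + 1)) with hw
  have hw0 : ∀ t, 0 < w t := fun t => by simp only [hw]; positivity
  have haw : ∀ t, aa e t ≤ 2 ^ c1 * w t := by
    intro t
    have h1 : (1 / 2 : ℝ) ^ (kk e t + c1) ≤ w t :=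
      pow_le_pow_of_le_one (by norm_num) (by norm_num) (hc1 t)
    have h2 : (2 : ℝ) ^ c1 * (1 / 2) ^ c1 = 1 := by rw [← mul_pow]; norm_num
    calc aa e t = (2 ^ c1 * (1 / 2) ^ c1) * (1 / 2) ^ kk e t := by rw [h2, one_mul]; rfl
      _ = 2 ^ c1 * (1 / 2 : ℝ) ^ (kk e t + c1) := by rw [pow_add]; ring
      _ ≤ _ := by gcongr
  -- the pointwise inequality
  have hpoint : ∀ ω : ℕ → Bool, ∑ t ∈ Finset.Ico N M,
      w t * (((t : ℝ) + 1 + complexity V (binCode (t + 1)) - (4 * ((T : ℝ) + c') + c1 + 2)) +
        (4 * (complexity U (pre ω T) : ℝ) - complexity V (pre ω (t + 1)))) ≤ 0 := by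
    intro ω
    obtain ⟨S, hS1, hS2⟩ := hc' T (pre ω T) hT4 (pre_length ω T)
    have h1 := mass_ge (V := V) (e := e) ω hTM hNM.le (fun x hx => by
      obtain ⟨t, ht, p, hp1, hp2, hp3⟩ := hT0 x hx
      exact ⟨t, by omega, p, hp1, hp2, by omega⟩)
    have h2 := hS2 N (by omega)
    rw [pre_take ω (by omega : N ≤ T)] at h2
    set W0 := ∑ t ∈ Finset.Ico N M, w t with hW0
    have h3 : ∑ t ∈ Finset.Ico N M, (2 : ℝ) ^ (t + 1) * (1 / 2) ^ complexity V (pre ω (t + 1)) ≤
        2 ^ (4 * S + (c1 + 1)) * W0 := by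
      calc _ ≤ _ := h1
        _ ≤ _ := h2
        _ ≤ 16 ^ S * (2 * ∑ t ∈ Finset.Ico N M, aa e t) := by gcongr; exact hM T
        _ ≤ 16 ^ S * (2 * ∑ t ∈ Finset.Ico N M, 2 ^ c1 * w t) := by gcongr with t _; exact haw t
        _ = 2 ^ (4 * S + (c1 + 1)) * W0 := by
          rw [← Finset.mul_sum, pow_add, pow_mul, pow_succ 2 c1]
          norm_num
          ring
    set L := 4 * S + (c1 + 1) with hL
    have h4 : ∀ t ∈ Finset.Ico N M,
        w t * (((t : ℝ) + 1 + complexity V (binCode (t + 1)) - (4 * ((T : ℝ) + c') + c1 + 2)) +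
        (4 * (complexity U (pre ω T) : ℝ) - complexity V (pre ω (t + 1)))) ≤
        (1 / 2) ^ L * ((2 : ℝ) ^ (t + 1) * (1 / 2) ^ complexity V (pre ω (t + 1))) - w t := by
      intro t _
      have h5 := sub_le_pow (t + 1 + complexity V (binCode (t + 1)))
        (complexity V (pre ω (t + 1)) + L)
      have h6 : (complexity U (pre ω T) : ℝ) + S ≤ T + c' := by exact_mod_cast hS1
      have h7 : ((t : ℝ) + 1 + complexity V (binCode (t + 1)) - (4 * ((T : ℝ) + c') + c1 + 2)) +
          (4 * (complexity U (pre ω T) : ℝ) - complexity V (pre ω (t + 1))) ≤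
          2 ^ (t + 1 + complexity V (binCode (t + 1))) *
            (1 / 2) ^ (complexity V (pre ω (t + 1)) + L) - 1 := by
        refine le_trans ?_ (sub_le_sub_right h5 1)
        push_cast [hL]
        linarith
      have h8 := mul_le_mul_of_nonneg_left h7 (hw0 t).le
      refine h8.trans (le_of_eq ?_)
      have h9 : w t * (2 : ℝ) ^ complexity V (binCode (t + 1)) = 1 := by
        simp only [hw]
        rw [← mul_pow]; norm_num
      rw [mul_sub, mul_one, pow_add (2 : ℝ), pow_add (1 / 2 : ℝ)]
      congr 1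
      calc w t * (2 ^ (t + 1) * 2 ^ complexity V (binCode (t + 1)) *
            ((1 / 2) ^ complexity V (pre ω (t + 1)) * (1 / 2) ^ L)) =
          (w t * 2 ^ complexity V (binCode (t + 1))) * ((1 / 2) ^ L *
            (2 ^ (t + 1) * (1 / 2) ^ complexity V (pre ω (t + 1)))) := by ring
        _ = _ := by rw [h9, one_mul]
    refine (Finset.sum_le_sum h4).trans ?_
    rw [Finset.sum_sub_distrib, ← Finset.mul_sum]
    have h5 : (1 / 2 : ℝ) ^ L * ∑ t ∈ Finset.Ico N M,
        (2 : ℝ) ^ (t + 1) * (1 / 2) ^ complexity V (pre ω (t + 1)) ≤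
        (1 / 2) ^ L * (2 ^ L * W0) := by gcongr
    have h6 : (1 / 2 : ℝ) ^ L * (2 ^ L * W0) = W0 := by
      rw [← mul_assoc, ← mul_pow]; norm_num
    linarith
  -- integration
  have hIU := (integrable_pre μ (fun x => (complexity U x : ℝ)) T).1
  have hIV := fun t : ℕ => (integrable_pre μ (fun x => (complexity V x : ℝ)) (t + 1)).1
  have hint : ∫ ω, ∑ t ∈ Finset.Ico N M,
      w t * (((t : ℝ) + 1 + complexity V (binCode (t + 1)) - (4 * ((T : ℝ) + c') + c1 + 2)) +
        (4 * (complexity U (pre ω T) : ℝ) - complexity V (pre ω (t + 1)))) ∂μ =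
      ∑ t ∈ Finset.Ico N M,
      w t * (((t : ℝ) + 1 + complexity V (binCode (t + 1)) - (4 * ((T : ℝ) + c') + c1 + 2)) +
        (4 * average (complexity U) μ T - average (complexity V) μ (t + 1))) := by
    have hI4 : Integrable (fun ω => 4 * (complexity U (pre ω T) : ℝ)) μ := hIU.const_mul 4
    have hID : ∀ t : ℕ, Integrable (fun ω => 4 * (complexity U (pre ω T) : ℝ) -
        (complexity V (pre ω (t + 1)) : ℝ)) μ := fun t => hI4.sub (hIV t)
    rw [integral_finsetSum]
    · refine Finset.sum_congr rfl fun t _ => ?_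
      rw [integral_const_mul, integral_add (integrable_const _) (hID t),
        integral_sub hI4 (hIV t), integral_const_mul, ← average_eq, ← average_eq]
      simp
    · intro t _
      exact ((integrable_const _).add (hID t)).const_mul _
  have hle : ∑ t ∈ Finset.Ico N M,
      w t * (((t : ℝ) + 1 + complexity V (binCode (t + 1)) - (4 * ((T : ℝ) + c') + c1 + 2)) +
        (4 * average (complexity U) μ T - average (complexity V) μ (t + 1))) ≤ 0 := by
    rw [← hint]
    exact integral_nonpos hpoint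
  -- conclusion
  by_contra hcon
  push Not at hcon
  have hpos : 0 < ∑ t ∈ Finset.Ico N M,
      w t * (((t : ℝ) + 1 + complexity V (binCode (t + 1)) - (4 * ((T : ℝ) + c') + c1 + 2)) +
        (4 * average (complexity U) μ T - average (complexity V) μ (t + 1))) := by
    refine Finset.sum_pos (fun t ht => ?_) ⟨N, Finset.mem_Ico.2 ⟨le_rfl, hNM⟩⟩
    rw [Finset.mem_Ico] at ht
    have h1 := hcon (t + 1) (by omega)
    push_cast at h1
    refine mul_pos (hw0 t) ?_
    linarith
  linarith

end Pool.Agent.Lib_helper93.KC
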